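import Pool.Agent.H985Z.SC.Spec

set_option autoImplicit false
set_option maxHeartbeats 400000

namespace Pool.Agent.H985Z.SC
open MeasureTheory Filter Topology Set
open scoped RealInnerProductSpace

namespace RedAux

lemma ex_hilb (V : Type) [AddCommGroup V] [Module ℝ V] (B : V →ₗ[ℝ] V →ₗ[ℝ] ℝ)
    (h1 : ∀ f g, B f g = B g f) (h2 : ∀ f, 0 ≤ B f f) (h3 : ∀ f, B f f = 0 → f = 0)
    (h4 : ∀ u : ℕ → V, (∀ ε : ℝ, 0 < ε → ∃ N : ℕ, ∀ m ≥ N, ∀ n ≥ N,
      B (u m - u n) (u m - u n) < ε) →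
      ∃ f, Tendsto (fun n => B (u n - f) (u n - f)) atTop (𝓝 0)) :
    ∃ (H : Type) (_ : NormedAddCommGroup H) (_ : InnerProductSpace ℝ H) (_ : CompleteSpace H)
      (e : H ≃ₗ[ℝ] V), ∀ f g, ⟪f, g⟫ = B (e f) (e g) := by
  let c : InnerProductSpace.Core ℝ V :=
    { inner := fun f g => B f g
      conj_inner_symm := fun f g => by simpa using h1 g f
      re_inner_nonneg := fun f => by simpa using h2 f
      add_left := fun f g h => by simp
      smul_left := fun f g r => by simp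
      definite := h3 }
  let _ : NormedAddCommGroup V := c.toNormedAddCommGroup
  let _ : InnerProductSpace ℝ V := InnerProductSpace.ofCore c.toCore
  have hn : ∀ f : V, B f f = ‖f‖ ^ 2 := fun f => real_inner_self_eq_norm_sq f
  refine ⟨V, inferInstance, inferInstance, Metric.complete_of_cauchySeq_tendsto fun u hu => ?_,
    LinearEquiv.refl ℝ V, fun _ _ => rfl⟩
  obtain ⟨f, hf⟩ := h4 u fun ε hε => by
    obtain ⟨N, hN⟩ := Metric.cauchySeq_iff.1 hu √ε (Real.sqrt_pos.2 hε)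
    refine ⟨N, fun m hm n hn' => ?_⟩
    rw [hn, ← dist_eq_norm]
    exact (Real.lt_sqrt dist_nonneg).1 (hN m hm n hn')
  refine ⟨f, tendsto_iff_norm_sub_tendsto_zero.2 ?_⟩
  simpa only [hn, Real.sqrt_sq (norm_nonneg _), Real.sqrt_zero] using hf.sqrt

variable {X : Type} [MetricSpace X] [CompactSpace X] [MeasurableSpace X] [BorelSpace X]
  {μ : Measure X} [IsFiniteMeasure μ] (D : DForm X μ)

omit [CompactSpace X] [BorelSpace X] [IsFiniteMeasure μ] in
lemma E_one (f : D.F) : D.E ⟨1, D.one_mem⟩ f = 0 := by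
  by_contra h0
  have := D.nonneg (f - ((D.E f f + 1) / (2 * D.E ⟨1, D.one_mem⟩ f)) • ⟨1, D.one_mem⟩)
  simp only [map_sub, map_smul, LinearMap.sub_apply, LinearMap.smul_apply, smul_eq_mul, D.E_one,
    D.symm f ⟨1, D.one_mem⟩] at this
  have h : (D.E f f + 1) / (2 * D.E ⟨1, D.one_mem⟩ f) * D.E ⟨1, D.one_mem⟩ f =
      (D.E f f + 1) / 2 := by field_simp
  linarith

omit [CompactSpace X] [BorelSpace X] [IsFiniteMeasure μ] in
lemma E_sub (f g : D.F) : D.E (f - g) (f - g) ≤ 2 * D.E f f + 2 * D.E g g := by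
  have := D.nonneg (f + g)
  simp only [map_sub, map_add, LinearMap.sub_apply, LinearMap.add_apply] at *
  linarith

lemma integrable (f : X → ℝ) (hf : Continuous f) : Integrable f μ :=
  hf.integrable_of_hasCompactSupport (HasCompactSupport.of_compactSpace f)

lemma sup_bound [μ.IsOpenPosMeasure] : ∃ C, 0 ≤ C ∧ ∀ (f : D.F) (x : X),
    (f : C(X, ℝ)) x ^ 2 ≤ C * (D.E f f + ∫ x, (f : C(X, ℝ)) x ^ 2 ∂μ) := by
  let T : D.F →ₗ[ℝ] Lp ℝ 2 μ := (ContinuousMap.toLp 2 μ ℝ).toLinearMap ∘ₗ D.F.subtype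
  have hT : ∀ f, ⟪T f, T f⟫ = ∫ x, (f : C(X, ℝ)) x ^ 2 ∂μ := fun f =>
    (ContinuousMap.inner_toLp μ (f : C(X, ℝ)) f).trans (by simp [sq])
  have hB : ∀ f g, (D.E + (innerₗ _).compl₁₂ T T) f g = D.E f g + ⟪T f, T g⟫ := fun _ _ => rfl
  obtain ⟨H, _, _, _, e, he⟩ := ex_hilb D.F (D.E + (innerₗ _).compl₁₂ T T)
    (fun f g => by rw [hB, hB, D.symm, real_inner_comm])
    (fun f => by rw [hB]; exact add_nonneg (D.nonneg f) real_inner_self_nonneg)
    (fun f h => by
      rw [hB] at h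
      have : ⟪T f, T f⟫ = 0 := by linarith [D.nonneg f, real_inner_self_nonneg (x := T f)]
      exact Subtype.ext (ContinuousMap.toLp_injective μ (p := 2) (𝕜 := ℝ)
        ((inner_self_eq_zero.1 this).trans (map_zero _).symm)))
    (by simpa only [hB, hT] using D.closed)
  have h1 : Continuous (T ∘ₗ e.toLinearMap) :=
    AddMonoidHomClass.continuous_of_bound _ 1 fun f => by
      refine abs_le_of_sq_le_sq' ?_ (by positivity) |>.2
      rw [one_mul, ← real_inner_self_eq_norm_sq, ← real_inner_self_eq_norm_sq, he, hB]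
      exact le_add_of_nonneg_left (D.nonneg _)
  have h2 : Continuous (D.F.subtype ∘ₗ e.toLinearMap) :=
    LinearMap.continuous_of_seq_closed_graph _ fun u x y hx hy =>
      ContinuousMap.toLp_injective μ (p := 2) (𝕜 := ℝ) (tendsto_nhds_unique
        (((ContinuousMap.toLp 2 μ ℝ).continuous.tendsto y).comp hy) ((h1.tendsto x).comp hx))
  obtain ⟨C, hC, h3⟩ := (⟨_, h2⟩ : H →L[ℝ] C(X, ℝ)).bound
  refine ⟨C ^ 2, by positivity, fun f x => ?_⟩
  obtain ⟨f, rfl⟩ := e.surjective f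
  rw [← hT, ← hB, ← he, real_inner_self_eq_norm_sq, ← mul_pow, ← sq_abs]
  exact pow_le_pow_left₀ (abs_nonneg _) (((e f : C(X, ℝ)).norm_coe_le_norm x).trans (h3 f)) 2

lemma res_bound [ConnectedSpace X] [μ.IsOpenPosMeasure] : ∃ R, 0 ≤ R ∧ ∀ (f : D.F) (x y : X),
    ((f : C(X, ℝ)) x - (f : C(X, ℝ)) y) ^ 2 ≤ R * D.E f f := by
  obtain ⟨C, hC, h⟩ := sup_bound D
  obtain ⟨N, hN⟩ := exists_nat_gt (2 * C * μ.real univ)
  have hN0 : (0 : ℝ) < N := lt_of_le_of_lt (by positivity) hN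
  refine ⟨8 * C * N ^ 2, by positivity, fun f x y => ?_⟩
  by_cases ha : (f : C(X, ℝ)) x - (f : C(X, ℝ)) y = 0
  · rw [ha, zero_pow two_ne_zero]; exact mul_nonneg (by positivity) (D.nonneg f)
  set s := N / ((f : C(X, ℝ)) x - (f : C(X, ℝ)) y) with hs
  let t : X → ℝ := fun z => s * ((f : C(X, ℝ)) z - (f : C(X, ℝ)) y)
  have ht : Continuous t := by fun_prop
  have a1 : ∀ k : ℕ, ∃ g : D.F, (∀ z, (g : C(X, ℝ)) z = min (max (t z - k) 0) 1) ∧
      D.E g g ≤ s ^ 2 * D.E f f := fun k => by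
    obtain ⟨b1, b2⟩ := D.markov (s • f - (s * (f : C(X, ℝ)) y + k) • ⟨1, D.one_mem⟩)
    refine ⟨⟨_, b1⟩, fun z => ?_, b2.trans_eq ?_⟩
    · simp only [t]; simp; congr 2; ring
    · simp only [map_sub, map_smul, LinearMap.sub_apply, LinearMap.smul_apply, smul_eq_mul,
        E_one, D.symm f ⟨1, D.one_mem⟩]
      ring
  choose g hg hg' using a1
  have a2 : ∀ k z, 0 ≤ ((g k - g (k + 1) : D.F) : C(X, ℝ)) z ∧
      ((g k - g (k + 1) : D.F) : C(X, ℝ)) z ≤ 1 := fun k z => by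
    simp only [Submodule.coe_sub, ContinuousMap.sub_apply, hg, Nat.cast_add, Nat.cast_one,
      min_def, max_def]
    constructor <;> split_ifs <;> linarith
  have a3 : ∀ k ∈ Finset.range N, 1 ≤ C * (4 * s ^ 2 * D.E f f +
      ∫ z, ((g k - g (k + 1) : D.F) : C(X, ℝ)) z ^ 2 ∂μ) := fun k hk => by
    have b1 : (k : ℝ) + 1 ≤ N := by exact_mod_cast Finset.mem_range.1 hk
    obtain ⟨z, hz⟩ := intermediate_value_univ y x ht (show (k : ℝ) + 1 ∈ Icc (t y) (t x) by
      simp only [t, hs, sub_self, mul_zero, div_mul_cancel₀ _ ha]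
      exact ⟨by positivity, b1⟩)
    have b2 := h (g k - g (k + 1)) z
    rw [show ((g k - g (k + 1) : D.F) : C(X, ℝ)) z = 1 by simp [hg, hz], one_pow] at b2
    refine b2.trans ?_
    gcongr
    linarith [E_sub D (g k) (g (k + 1)), hg' k, hg' (k + 1)]
  have a4 : ∑ k ∈ Finset.range N, ∫ z, ((g k - g (k + 1) : D.F) : C(X, ℝ)) z ^ 2 ∂μ ≤
      μ.real univ := by
    rw [← integral_finset_sum _ fun k _ => integrable _ (by fun_prop)]
    refine (integral_mono (integrable _ (by fun_prop)) (integrable_const 1) fun z => ?_).trans_eq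
      (by simp)
    refine (Finset.sum_le_sum fun k _ => pow_le_of_le_one (a2 k z).1 (a2 k z).2 two_ne_zero).trans ?_
    simp only [Submodule.coe_sub, ContinuousMap.sub_apply]
    rw [Finset.sum_range_sub' fun k => (g k : C(X, ℝ)) z, hg, hg]
    simp only [min_def, max_def]
    split_ifs <;> linarith
  have a5 := Finset.sum_le_sum a3
  rw [← Finset.mul_sum, Finset.sum_add_distrib, Finset.sum_const, Finset.sum_const,
    Finset.card_range, nsmul_eq_mul, nsmul_eq_mul] at a5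
  have a6 : 1 ≤ 8 * C * s ^ 2 * D.E f f := by
    refine le_of_mul_le_mul_left ?_ hN0
    nlinarith [mul_le_mul_of_nonneg_left a4 hC]
  rw [hs, div_pow, ← mul_div_assoc, div_mul_eq_mul_div, le_div_iff₀ (by positivity)] at a6
  linarith

end RedAux

open RedAux in
theorem red : S_RED := by
  intro X _ _ _ _ _ μ _ _ D o
  obtain ⟨C, hC, h1⟩ := sup_bound D
  obtain ⟨R, hR, h2⟩ := res_bound D
  let ev : D.F →ₗ[ℝ] ℝ := (ContinuousMap.evalCLM ℝ o).toLinearMap ∘ₗ D.F.subtype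
  have hB : ∀ f g, (D.E + (LinearMap.mul ℝ ℝ).compl₁₂ ev ev) f g =
    D.E f g + (f : C(X, ℝ)) o * (g : C(X, ℝ)) o := fun _ _ => rfl
  have h3 : ∀ (f : D.F) x, (f : C(X, ℝ)) x ^ 2 ≤
      (2 + 2 * R) * (D.E f f + (f : C(X, ℝ)) o * (f : C(X, ℝ)) o) := fun f x => by
    nlinarith [h2 f x o, D.nonneg f, sq_nonneg ((f : C(X, ℝ)) x - 2 * (f : C(X, ℝ)) o),
      mul_nonneg hR (mul_self_nonneg ((f : C(X, ℝ)) o))]
  have h4 : ∀ f : D.F, D.E f f + ∫ x, (f : C(X, ℝ)) x ^ 2 ∂μ ≤ (1 + μ.real univ * (2 + 2 * R)) *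
      (D.E f f + (f : C(X, ℝ)) o * (f : C(X, ℝ)) o) := fun f => by
    have := integral_mono (μ := μ) (integrable _ (by fun_prop)) (integrable_const _) (h3 f)
    rw [integral_const, smul_eq_mul] at this
    nlinarith [mul_self_nonneg ((f : C(X, ℝ)) o)]
  obtain ⟨H, _, _, _, e, he⟩ := ex_hilb D.F (D.E + (LinearMap.mul ℝ ℝ).compl₁₂ ev ev)
    (fun f g => by rw [hB, hB, D.symm, mul_comm])
    (fun f => by rw [hB]; exact add_nonneg (D.nonneg f) (mul_self_nonneg _))
    (fun f h => by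
      refine Subtype.ext (ContinuousMap.ext fun x => pow_eq_zero_iff two_ne_zero |>.1 ?_)
      have := h3 f x
      rw [← hB, h, mul_zero] at this
      exact le_antisymm this (sq_nonneg _))
    fun u hu => by
      have hK : 0 < 1 + μ.real univ * (2 + 2 * R) := by positivity
      obtain ⟨f, hf⟩ := D.closed u fun ε hε => by
        obtain ⟨N, hN⟩ := hu _ (div_pos hε hK)
        exact ⟨N, fun m hm n hn => (h4 _).trans_lt ((lt_div_iff₀' hK).1 (hN m hm n hn))⟩
      refine ⟨f, squeeze_zero (fun n => add_nonneg (D.nonneg _) (mul_self_nonneg _)) (fun n => ?_)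
        (by simpa only [mul_zero] using hf.const_mul (1 + C))⟩
      have b1 := h1 (u n - f) o
      have b2 : 0 ≤ ∫ x, ((u n - f : D.F) : C(X, ℝ)) x ^ 2 ∂μ := integral_nonneg fun _ => sq_nonneg _
      rw [hB]
      linarith
  simp only [hB] at he
  let ι : H →L[ℝ] C(X, ℝ) := (D.F.subtype ∘ₗ e.toLinearMap).mkContinuous √(2 + 2 * R) fun f => by
    refine (ContinuousMap.norm_le _ (by positivity)).2 fun x => abs_le_of_sq_le_sq ?_ (by positivity)
    rw [mul_pow, Real.sq_sqrt (by positivity), ← real_inner_self_eq_norm_sq, he]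
    exact h3 _ x
  have hι : ∀ f, ι f = (e f : C(X, ℝ)) := fun _ => rfl
  refine ⟨H, _, _, inferInstance, ⟨ι, fun f g h => e.injective (Subtype.ext h), o,
    e.symm ⟨1, D.one_mem⟩, by simp [hι], fun f => by simp [he, hι, E_one], fun f => ?_,
    D.dense.mono fun f hf => ⟨e.symm ⟨f, hf⟩, by simp [hι]⟩, fun f g h => ?_⟩, e, rfl, hι,
    fun f g => ?_⟩
  · obtain ⟨b1, b2⟩ := D.markov (e f)
    exact ⟨e.symm ⟨_, b1⟩, by simp [hι], by
      simpa only [he, hι, e.apply_symm_apply, add_sub_cancel_right] using b2⟩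
  · simpa only [he, hι, add_sub_cancel_right] using D.loc (e f) (e g) h
  · simp only [RF.E, he, hι, add_sub_cancel_right]

end Pool.Agent.H985Z.SC
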